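import Pool.Agent.H699.MW.Defs

/-!
MW-SLK (helper806 for helper699): the slack of one level.
-/

set_option autoImplicit false

open MeasureTheory Finset
open scoped ENNReal

namespace Pool.Agent.H806.MW.SLK

open Pool.Agent.H699.MW

theorem meas_le (c : ℝ) : MeasurableSet {p : ℝ × ℝ | p.1 - p.2 ≤ c} :=
  measurableSet_le (measurable_fst.sub measurable_snd) measurable_const

theorem meas_lt (c : ℝ) : MeasurableSet {p : ℝ × ℝ | p.1 - p.2 < c} :=
  measurableSet_lt (measurable_fst.sub measurable_snd) measurable_const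

theorem null_line (μ ν : Measure ℝ) [IsProbabilityMeasure μ] [IsProbabilityMeasure ν]
    (hμ : ∀ x, μ {x} = 0) (c : ℝ) : (μ.prod ν) {p | p.1 - p.2 = c} = 0 := by
  have hm : MeasurableSet {p : ℝ × ℝ | p.1 - p.2 = c} :=
    measurableSet_eq_fun (measurable_fst.sub measurable_snd) measurable_const
  rw [Measure.prod_apply_symm hm]
  have h1 : ∀ v : ℝ, μ ((fun x => (x, v)) ⁻¹' {p : ℝ × ℝ | p.1 - p.2 = c}) = 0 := by
    intro v
    have h2 : (fun x => (x, v)) ⁻¹' {p : ℝ × ℝ | p.1 - p.2 = c} = {c + v} := by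
      ext x
      change x - v = c ↔ x = c + v
      constructor
      · intro h
        linarith
      · intro h
        linarith
    rw [h2, hμ]
  simp_rw [h1]
  exact lintegral_zero

theorem le_eq_lt (μ ν : Measure ℝ) [IsProbabilityMeasure μ] [IsProbabilityMeasure ν]
    (hμ : ∀ x, μ {x} = 0) (c : ℝ) :
    (μ.prod ν) {p | p.1 - p.2 ≤ c} = (μ.prod ν) {p | p.1 - p.2 < c} := by
  have h0 : {p : ℝ × ℝ | p.1 - p.2 < c} ⊆ {p | p.1 - p.2 ≤ c} := by
    intro p hp
    change p.1 - p.2 ≤ c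
    change p.1 - p.2 < c at hp
    exact hp.le
  refine le_antisymm ?_ (measure_mono h0)
  have h1 : {p : ℝ × ℝ | p.1 - p.2 ≤ c} ⊆ {p | p.1 - p.2 < c} ∪ {p | p.1 - p.2 = c} := by
    intro p hp
    change p.1 - p.2 ≤ c at hp
    rcases lt_or_eq_of_le hp with h | h
    · exact Or.inl h
    · exact Or.inr h
  refine (measure_mono h1).trans ((measure_union_le _ _).trans ?_)
  rw [null_line μ ν hμ c, add_zero]

theorem sec_eq (c w : ℝ) : Prod.mk w ⁻¹' {p : ℝ × ℝ | p.1 - p.2 < c} = Set.Ioi (w - c) := by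
  ext v
  change w - v < c ↔ w - c < v
  constructor
  · intro h
    linarith
  · intro h
    linarith

theorem meas_sec (ν : Measure ℝ) [IsProbabilityMeasure ν] (c : ℝ) :
    Measurable fun w => ν (Set.Ioi (w - c)) := by
  have := measurable_measure_prodMk_left (ν := ν) (meas_lt c)
  simp_rw [sec_eq] at this
  exact this

theorem int_sec (μ ν : Measure ℝ) [IsProbabilityMeasure μ] [IsProbabilityMeasure ν] (c : ℝ) :
    Integrable (fun w => ν.real (Set.Ioi (w - c))) μ := by
  refine Integrable.of_bound (C := 1) (meas_sec ν c).ennreal_toReal.aestronglyMeasurable ?_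
  refine Filter.Eventually.of_forall fun w => ?_
  rw [Real.norm_eq_abs, abs_of_nonneg measureReal_nonneg]
  exact measureReal_le_one

theorem fub (μ ν : Measure ℝ) [IsProbabilityMeasure μ] [IsProbabilityMeasure ν]
    (hμ : ∀ x, μ {x} = 0) (c : ℝ) :
    (μ.prod ν).real {p | p.1 - p.2 ≤ c} = ∫ w, ν.real (Set.Ioi (w - c)) ∂μ := by
  unfold Measure.real
  rw [le_eq_lt μ ν hμ c, Measure.prod_apply (meas_lt c),
    integral_toReal (meas_sec ν c).aemeasurable
      (Filter.Eventually.of_forall fun w => measure_lt_top _ _)]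
  simp_rw [sec_eq]

theorem slack_nonneg {S : ℝ} {νm νp : Measure ℝ} [IsProbabilityMeasure νm]
    [IsProbabilityMeasure νp] (h0 : νm (Set.Iio 0) = 0) (hD : Dom S νm νp) (u : ℝ) :
    0 ≤ slack S νm νp u := by
  unfold slack
  rcases le_or_gt 0 u with h | h
  · have := hD u h
    linarith
  · have h1 : νm (Set.Ioi u) = 1 := by
      have h2 : (Set.Ioi u)ᶜ ⊆ Set.Iio (0:ℝ) := by
        intro v hv
        simp only [Set.mem_compl_iff, Set.mem_Ioi, not_lt] at hv
        exact lt_of_le_of_lt hv h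
      have h3 : νm (Set.Ioi u)ᶜ = 0 := measure_mono_null h2 h0
      rwa [prob_compl_eq_zero_iff measurableSet_Ioi] at h3
    have h4 : νm.real (Set.Ioi u) = 1 := by
      unfold Measure.real
      rw [h1, ENNReal.toReal_one]
    have h5 : νp.real (Set.Ioi (u + S)) ≤ 1 := measureReal_le_one
    linarith

theorem diff_eq {S t : ℝ} (μ νm νp : Measure ℝ) [IsProbabilityMeasure μ]
    [IsProbabilityMeasure νm] [IsProbabilityMeasure νp] (hμ : ∀ x, μ {x} = 0) :
    (μ.prod νm).real {p | p.1 - p.2 ≤ t + S} - (μ.prod νp).real {p | p.1 - p.2 ≤ t} =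
      ∫ w, slack S νm νp (w - t - S) ∂μ := by
  rw [fub μ νm hμ, fub μ νp hμ, ← integral_sub (int_sec μ νm _) (int_sec μ νp _)]
  refine integral_congr_ae (Filter.Eventually.of_forall fun w => ?_)
  change νm.real (Set.Ioi (w - (t + S))) - νp.real (Set.Ioi (w - t)) =
    νm.real (Set.Ioi (w - t - S)) - νp.real (Set.Ioi (w - t - S + S))
  rw [sub_add_cancel, sub_sub w t S]

theorem prod_diff {k : ℕ} (x y : Fin k → ℝ) (j : Fin k) (hx : ∀ i, 0 ≤ x i)
    (hxy : ∀ i, x i ≤ y i) :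
    (∏ i ∈ univ.erase j, y i) * (y j - x j) ≤ ∏ i, y i - ∏ i, x i := by
  have h1 := Finset.mul_prod_erase univ x (mem_univ j)
  have h2 := Finset.mul_prod_erase univ y (mem_univ j)
  have h3 : ∏ i ∈ univ.erase j, x i ≤ ∏ i ∈ univ.erase j, y i :=
    Finset.prod_le_prod (fun i _ => hx i) (fun i _ => hxy i)
  have h4 := mul_le_mul_of_nonneg_left h3 (hx j)
  rw [← h1, ← h2]
  nlinarith [h4]

theorem t_SLK : S_CDF → S_SLK := by
  intro hC μ k νm νp S t j hμ hat hm hp h0 hS hD ht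
  obtain ⟨hpp, hpc⟩ := hC μ k νp hμ hp
  obtain ⟨hmp, hmc⟩ := hC μ k νm hμ hm
  have hd : ∀ i, (μ.prod (νm i)).real {p | p.1 - p.2 ≤ t + S} -
      (μ.prod (νp i)).real {p | p.1 - p.2 ≤ t} =
      ∫ w, slack S (νm i) (νp i) (w - t - S) ∂μ := fun i => by
    have := hm i
    have := hp i
    exact diff_eq μ (νm i) (νp i) hat
  have hxy : ∀ i, (μ.prod (νp i)).real {p | p.1 - p.2 ≤ t} ≤
      (μ.prod (νm i)).real {p | p.1 - p.2 ≤ t + S} := fun i => by
    have := hm i
    have := hp i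
    have h1 : 0 ≤ ∫ w, slack S (νm i) (νp i) (w - t - S) ∂μ :=
      integral_nonneg fun w => slack_nonneg (h0 i) (hD i) _
    rw [← hd i] at h1
    linarith
  have e : ∀ (ρ : Measure ℝ) [IsProbabilityMeasure ρ] (c : ℝ),
      ρ.real (Set.Ioi c) = 1 - ρ.real (Set.Iic c) := by
    intro ρ _ c
    rw [← Set.compl_Iic, probReal_compl_eq_one_sub measurableSet_Iic]
  have key : slack S (stepLaw μ k νp) (stepLaw μ k νm) t =
      ∏ i, (μ.prod (νm i)).real {p | p.1 - p.2 ≤ t + S} -
      ∏ i, (μ.prod (νp i)).real {p | p.1 - p.2 ≤ t} := by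
    unfold slack
    rw [e, e, hpc t ht, hmc (t + S) (by linarith)]
    ring
  rw [key, ← hd j]
  exact prod_diff _ _ j (fun i => measureReal_nonneg) hxy

end Pool.Agent.H806.MW.SLK
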